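import Pool.Agent.H81.QC.AVJ

/-!
# Module AVF: a machine of the hierarchy is not right in most simulations with respect to the complement
-/

set_option autoImplicit false

namespace Pool.Agent.H60.QC

open Finset Filter Pool.Agent.H6.NB Pool.Agent.H70.OQ Pool.Agent.H70.RK Pool.Agent.H70.RC
open Pool.Agent.H68.QC
open Pool.Agent.H70.RW (SimK)
open Pool.Agent.H81.QC (nonempty_hid card_half dcount)

/-- The value of `fR`. -/
theorem fR_val {l n N : ℕ} {X : (Fin N → Bool) → Bool} {b : Bool} (h : fR l n N X = some b) :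
    (List.replicate n false ∉ hlang l (orc N X) ↔ b = true) := by
  unfold fR at h
  split_ifs at h with h1
  rw [Option.some_inj] at h
  rw [← h]
  simp

theorem coreF (hMKX : T_MKX) (hFXU : T_FXU) (hARN : T_ARN) (hAMN : T_AMN) (hSCX : T_SCX)
    (l n k m m' : ℕ) (hm : m ≤ m') (P1 P0 : (List Bool → Bool) → Prop)
    (hT : ∀ e : List Bool → (Nn (n + 1) l → Bool) → Bool,
      (∀ w, Adp (Qst (Nn (n + 1) l) m' k) m' (e w)) → ∃ K : ℕ, 100 * K ≤ 2 ^ (n + 1) ∧
      100 * {H : Hid (Fin (n + 1) → Bool) (Ys (n + 1)) l |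
        Bad false K l (fun y => P0 fun w => e w y) (fun y => P1 fun w => e w y) H}.ncard ≤
        Fintype.card (Hid (Fin (n + 1) → Bool) (Ys (n + 1)) l)) :
    ¬ SimK k (nod (n + 1) l) m (fun O =>
      (List.replicate (n + 1) false ∉ hlang l O → P1 O) ∧
        (List.replicate (n + 1) false ∈ hlang l O → P0 O)) (fR l (n + 1) (nod (n + 1) l)) := by
  classical
  rintro ⟨e, hadp, hdom⟩
  let HH : Type := Hid (Fin (n + 1) → Bool) (Ys (n + 1)) l
  let RR : Type := Fin (n + 1) → Bool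
  let XX : (HH × RR) ⊕ (HH × RR) → (Fin (nod (n + 1) l) → Bool) → Bool :=
    fun p => mkX (n + 1) l (nod (n + 1) l) (Sum.elim (fun q => tabU l q.1 q.2) (fun q => tabT l q.1) p)
  let B : Fin (2 ^ (nod (n + 1) l) + 1) → (HH × RR) ⊕ (HH × RR) → Prop :=
    fun i p => ¬ (sec (fun w => e i w (XX p)) (nod (n + 1) l) = XX p ∧
      ((List.replicate (n + 1) false ∉ hlang l (fun w => e i w (XX p)) → P1 (fun w => e i w (XX p))) ∧
        (List.replicate (n + 1) false ∈ hlang l (fun w => e i w (XX p)) →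
          P0 (fun w => e i w (XX p)))))
  have hfl : ∀ q : HH × RR, fR l (n + 1) (nod (n + 1) l) (XX (Sum.inl q)) = some (!q.2 0) :=
    fun q => (hFXU l n q.1 q.2).2.1
  have hfr : ∀ q : HH × RR, fR l (n + 1) (nod (n + 1) l) (XX (Sum.inr q)) = some true :=
    fun q => (hFXU l n q.1 q.2).2.2
  have hB : ∀ p, 100 * {i | B i p}.ncard ≤ 2 ^ (nod (n + 1) l) + 1 := fun p => by
    rcases p with q | q
    · exact hdom (XX (Sum.inl q)) (by rw [hfl q]; simp)
    · exact hdom (XX (Sum.inr q)) (by rw [hfr q]; simp)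
  obtain ⟨i, hi⟩ := dcount (2 ^ nod (n + 1) l) B hB
  obtain ⟨φ, hφ⟩ := (hMKX (n + 1) l (fun _ => true)).2
  have hadp' : ∀ w, Adp (Qst (Nn (n + 1) l) m' k) m' fun y => e i w (mkX (n + 1) l (nod (n + 1) l) y) := fun w => by
    have h1 := hARN (Fin (nod (n + 1) l) → Bool) (Nn (n + 1) l) φ m m k (e i w) (hadp i w)
    have h2 := hAMN (Nn (n + 1) l) m m' k _ hm h1
    have h3 : (fun y : Nn (n + 1) l → Bool => e i w (mkX (n + 1) l (nod (n + 1) l) y)) =
        fun y => e i w fun v => y (φ v) := by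
      funext y
      congr 1
      funext v
      exact hφ y v
    rw [h3]
    exact h2
  obtain ⟨K, hK, hbad⟩ := hT (fun w y => e i w (mkX (n + 1) l (nod (n + 1) l) y)) hadp'
  -- the good rows
  have hgoodU : ∀ (H : HH) (x : RR), ¬ B i (Sum.inl (H, x)) → x 0 = true →
      P0 (fun w => e i w (mkX (n + 1) l (nod (n + 1) l) (tabU l H x))) := by
    intro H x hx hx0
    obtain ⟨h2, _, h4⟩ := not_not.mp hx
    have h5 := (hSCX l (n + 1) (fun w => e i w (XX (Sum.inl (H, x)))) (XX (Sum.inl (H, x))) h2).2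
    have h6 := fR_val (hfl (H, x))
    refine h4 ?_
    rw [h5]
    by_contra hc
    have h7 := h6.mp hc
    have h8 : (!x 0) = true := h7
    rw [hx0] at h8
    simp at h8
  have hgoodT : ∀ (H : HH) (x : RR), ¬ B i (Sum.inr (H, x)) →
      P1 (fun w => e i w (mkX (n + 1) l (nod (n + 1) l) (tabT l H))) := by
    intro H x hx
    obtain ⟨h2, h3, _⟩ := not_not.mp hx
    have h5 := (hSCX l (n + 1) (fun w => e i w (XX (Sum.inr (H, x)))) (XX (Sum.inr (H, x))) h2).2
    have h6 := fR_val (hfr (H, x))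
    refine h3 ?_
    rw [h5]
    exact h6.mpr rfl
  let BT : HH → Prop := fun H => ∃ x : RR, B i (Sum.inr (H, x))
  have hBT : ∀ (H : HH) (x : RR), B i (Sum.inr (H, x)) ↔ BT H := fun H x =>
    ⟨fun h => ⟨x, h⟩, fun ⟨_, h⟩ => h⟩
  -- the count for a hidden part which is not bad
  have hcnt : ∀ H : HH,
      ¬ Bad false K l (fun y => P0 fun w => e i w (mkX (n + 1) l (nod (n + 1) l) y))
        (fun y => P1 fun w => e i w (mkX (n + 1) l (nod (n + 1) l) y)) H → ¬ BT H →
      2 ^ n ≤ K + (univ.filter fun x : RR => B i (Sum.inl (H, x))).card := by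
    intro H hH hbt
    have hH' : ¬ (K < {x | P0 fun w => e i w (mkX (n + 1) l (nod (n + 1) l) (tabU l H x))}.ncard ∧
        P1 fun w => e i w (mkX (n + 1) l (nod (n + 1) l) (tabT l H))) := hH
    have hT1 := hgoodT H (fun _ => true) fun h => hbt ((hBT _ _).mp h)
    have hQ : {x | P0 fun w => e i w (mkX (n + 1) l (nod (n + 1) l) (tabU l H x))}.ncard ≤ K := by
      by_contra hc
      exact hH' ⟨not_le.mp hc, hT1⟩
    rw [← card_half n true]
    have e1 : {x | P0 fun w => e i w (mkX (n + 1) l (nod (n + 1) l) (tabU l H x))}.ncard =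
        (univ.filter fun x => P0 fun w => e i w (mkX (n + 1) l (nod (n + 1) l) (tabU l H x))).card := by
      rw [← Set.ncard_coe_finset]
      congr 1
      ext x
      simp
    rw [e1] at hQ
    refine le_trans (card_le_card (t := (univ.filter fun x =>
      P0 fun w => e i w (mkX (n + 1) l (nod (n + 1) l) (tabU l H x))) ∪
      (univ.filter fun x : RR => B i (Sum.inl (H, x)))) ?_)
      (le_trans (card_union_le _ _) (Nat.add_le_add_right hQ _))
    intro x hx
    rw [mem_filter] at hx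
    rw [mem_union, mem_filter, mem_filter]
    by_cases hb : B i (Sum.inl (H, x))
    · exact Or.inr ⟨mem_univ _, hb⟩
    · exact Or.inl ⟨mem_univ _, hgoodU H x hb hx.2⟩
  -- the final count
  set cH := Fintype.card HH with hcH
  have hpos : 0 < cH := by
    have : Nonempty HH := nonempty_hid (n + 1) l
    exact Fintype.card_pos
  set bs := (univ.filter fun H : HH =>
      Bad false K l (fun y => P0 fun w => e i w (mkX (n + 1) l (nod (n + 1) l) y))
        (fun y => P1 fun w => e i w (mkX (n + 1) l (nod (n + 1) l) y)) H) with hbs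
  set bt := (univ.filter fun H : HH => BT H) with hbt
  have hbs' : 100 * bs.card ≤ cH := by
    have e1 : {H : HH |
      Bad false K l (fun y => P0 fun w => e i w (mkX (n + 1) l (nod (n + 1) l) y))
        (fun y => P1 fun w => e i w (mkX (n + 1) l (nod (n + 1) l) y)) H}.ncard = bs.card := by
      rw [← Set.ncard_coe_finset]
      congr 1
      ext H
      simp [hbs]
    rw [← e1]
    exact hbad
  have htot : {p | B i p}.ncard = ∑ H : HH, (univ.filter fun x : RR => B i (Sum.inl (H, x))).card +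
      ∑ H : HH, (univ.filter fun x : RR => B i (Sum.inr (H, x))).card := by
    have e1 : {p | B i p}.ncard = (univ.filter fun p => B i p).card := by
      rw [← Set.ncard_coe_finset]
      congr 1
      ext p
      simp
    rw [e1]
    simp only [card_filter]
    rw [Fintype.sum_sum_type, Fintype.sum_prod_type, Fintype.sum_prod_type]
  have hbtc : ∑ H : HH, (univ.filter fun x : RR => B i (Sum.inr (H, x))).card =
      bt.card * 2 ^ (n + 1) := by
    have e1 : ∀ H : HH, (univ.filter fun x : RR => B i (Sum.inr (H, x))).card =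
        if BT H then 2 ^ (n + 1) else 0 := fun H => by
      by_cases h : BT H
      · rw [if_pos h]
        have e2 : (univ.filter fun x : RR => B i (Sum.inr (H, x))) = univ := by
          ext x
          simp only [mem_filter, mem_univ, true_and, iff_true]
          exact (hBT H x).mpr h
        rw [e2, card_univ]
        show Fintype.card (Fin (n + 1) → Bool) = _
        rw [Fintype.card_fun, Fintype.card_bool, Fintype.card_fin]
      · rw [if_neg h]
        rw [card_eq_zero]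
        ext x
        simp only [mem_filter, mem_univ, true_and, notMem_empty, iff_false]
        exact fun hc => h ((hBT H x).mp hc)
    rw [sum_congr rfl fun H _ => e1 H, ← sum_filter, sum_const, smul_eq_mul]
  have hcl : cH ≤ ((bs ∪ bt)ᶜ).card + (bs.card + bt.card) := by
    have h1 : ((bs ∪ bt)ᶜ).card = cH - (bs ∪ bt).card := card_compl _
    have h2 : (bs ∪ bt).card ≤ bs.card + bt.card := card_union_le _ _
    omega
  have hlow : ((bs ∪ bt)ᶜ).card * (2 ^ n - K) ≤
      ∑ H : HH, (univ.filter fun x : RR => B i (Sum.inl (H, x))).card := by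
    rw [← smul_eq_mul, ← sum_const]
    refine le_trans (sum_le_sum (g := fun H : HH =>
      (univ.filter fun x : RR => B i (Sum.inl (H, x))).card) fun H hH => ?_)
      (sum_le_sum_of_subset (subset_univ _))
    rw [mem_compl, mem_union, not_or, hbs, hbt, mem_filter, mem_filter] at hH
    have := hcnt H (fun hc => hH.1 ⟨mem_univ _, hc⟩) (fun hc => hH.2 ⟨mem_univ _, hc⟩)
    omega
  have hup : 100 * {p | B i p}.ncard ≤ 2 * (cH * 2 ^ (n + 1)) := by
    refine le_trans hi (le_of_eq ?_)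
    rw [Fintype.card_sum, Fintype.card_prod]
    have : Fintype.card RR = 2 ^ (n + 1) := by
      show Fintype.card (Fin (n + 1) → Bool) = _
      rw [Fintype.card_fun, Fintype.card_bool, Fintype.card_fin]
    rw [this]
    ring
  -- numbers
  rw [htot, hbtc] at hup
  set SU := ∑ H : HH, (univ.filter fun x : RR => B i (Sum.inl (H, x))).card with hSU
  have hK2 : K ≤ 2 ^ n := by
    have : 1 ≤ 2 ^ n := Nat.one_le_two_pow
    rw [pow_succ] at hK
    omega
  have hlow' : ((((bs ∪ bt)ᶜ).card : ℝ)) * ((2 : ℝ) ^ n - K) ≤ (SU : ℝ) := by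
    have h3 : ((((bs ∪ bt)ᶜ).card * (2 ^ n - K) : ℕ) : ℝ) ≤ (SU : ℝ) := by
      exact_mod_cast hlow
    rw [Nat.cast_mul, Nat.cast_sub hK2] at h3
    push_cast at h3
    exact h3
  have hcl' : (cH : ℝ) ≤ (((bs ∪ bt)ᶜ).card : ℝ) + ((bs.card : ℝ) + bt.card) := by
    exact_mod_cast hcl
  have hup' : 100 * ((SU : ℝ) + (bt.card : ℝ) * (2 : ℝ) ^ (n + 1)) ≤ 2 * ((cH : ℝ) * (2 : ℝ) ^ (n + 1)) := by
    exact_mod_cast hup
  have hK' : 100 * (K : ℝ) ≤ (2 : ℝ) ^ (n + 1) := by exact_mod_cast hK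
  have hbs2 : 100 * (bs.card : ℝ) ≤ (cH : ℝ) := by exact_mod_cast hbs'
  have hpos' : (0 : ℝ) < (cH : ℝ) := by exact_mod_cast hpos
  have hp2 : (0 : ℝ) < (2 : ℝ) ^ n := by positivity
  have hSU0 : (0 : ℝ) ≤ (SU : ℝ) := Nat.cast_nonneg _
  have hbt0 : (0 : ℝ) ≤ (bt.card : ℝ) := Nat.cast_nonneg _
  rw [pow_succ] at hup' hK'
  have h4 : (0 : ℝ) < (cH : ℝ) * (2 : ℝ) ^ n := mul_pos hpos' hp2
  have hbt2 : 100 * (bt.card : ℝ) ≤ 2 * (cH : ℝ) := by
    have h5 : (100 * (bt.card : ℝ)) * (2 : ℝ) ^ n ≤ (2 * (cH : ℝ)) * (2 : ℝ) ^ n := by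
      linarith
    exact le_of_mul_le_mul_right h5 hp2
  have hSU2 : 100 * (SU : ℝ) ≤ 4 * ((cH : ℝ) * (2 : ℝ) ^ n) := by
    have : 0 ≤ (bt.card : ℝ) * ((2 : ℝ) ^ n * 2) :=
      mul_nonneg hbt0 (mul_nonneg hp2.le (by norm_num))
    linarith
  have h1 : (97 / 100 : ℝ) * cH ≤ (((bs ∪ bt)ᶜ).card : ℝ) := by linarith
  have h2 : (98 / 100 : ℝ) * (2 : ℝ) ^ n ≤ (2 : ℝ) ^ n - K := by linarith
  have h3 : (97 / 100 : ℝ) * cH * ((98 / 100 : ℝ) * (2 : ℝ) ^ n) ≤
      (((bs ∪ bt)ᶜ).card : ℝ) * ((2 : ℝ) ^ n - K) :=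
    mul_le_mul h1 h2 (by positivity) (Nat.cast_nonneg _)
  nlinarith

/-- **AVF.** -/
theorem pf_AVF (hTJF : T_TJF) (hTJR : T_TJR) (hMKX : T_MKX) (hFXU : T_FXU) (hSCX : T_SCX)
    (hARN : T_ARN) (hAMN : T_AMN) : T_AVF := by
  intro k j c C ε hk hε
  have hmax : ∀ n c m : ℕ, 1 ≤ n → m ≤ n ^ c → max m 1 ≤ n ^ c := fun n c m hn hm =>
    max_le hm (Nat.one_le_pow _ _ hn)
  rcases j with _ | i0
  · obtain ⟨k', rfl⟩ : ∃ k', k = k' + 1 := ⟨k - 1, by omega⟩
    filter_upwards [hTJR k' c C ε hε, eventually_ge_atTop 1] with n hn hn1 mw m alg hmw hm hadm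
    obtain ⟨n', rfl⟩ : ∃ n', n = n' + 1 := ⟨n - 1, by omega⟩
    have hY : ∀ O, Yes mw (0 + 1) alg O ↔ YesP {A | ∃ w : List Bool, w.length ≤ mw ∧ A = alg [w]} O := by
      intro O
      constructor
      · rintro ⟨w, hw, h⟩
        exact ⟨alg [w], ⟨w, hw, rfl⟩, h⟩
      · rintro ⟨A, ⟨w, hw, rfl⟩, h⟩
        exact ⟨w, hw, h⟩
    have hN : ∀ O, No mw (0 + 1) alg O ↔ NoP {A | ∃ w : List Bool, w.length ≤ mw ∧ A = alg [w]} O := by
      intro O
      constructor
      · rintro h A ⟨w, hw, rfl⟩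
        exact h w hw
      · intro h w hw
        exact h (alg [w]) ⟨w, hw, rfl⟩
    have hR : ∀ A ∈ {A | ∃ w : List Bool, w.length ≤ mw ∧ A = alg [w]},
        A.Short mw ∧ (A.T : ℝ) ≤ C * 2 ^ ((1 / 2 - ε) * ((n' + 1 : ℕ) : ℝ)) := by
      rintro A ⟨w, hw, rfl⟩
      exact hadm [w] rfl fun u hu => by
        rw [List.mem_singleton] at hu
        rw [hu]
        exact hw
    refine coreF hMKX hFXU hARN hAMN hSCX (k' + 1) n' (k' + 1) m (max m 1) (le_max_left _ _)
      (Yes mw (0 + 1) alg) (No mw (0 + 1) alg) fun e he => ?_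
    have h1 := hn mw (max m 1) {A | ∃ w : List Bool, w.length ≤ mw ∧ A = alg [w]} e
      (le_trans hmw (le_max_left _ _)) (le_max_right _ _) (hmax _ _ _ hn1 hm) hR he
    have e1 : YesP {A | ∃ w : List Bool, w.length ≤ mw ∧ A = alg [w]} = Yes mw (0 + 1) alg := by
      funext O
      exact propext (hY O).symm
    have e2 : NoP {A | ∃ w : List Bool, w.length ≤ mw ∧ A = alg [w]} = No mw (0 + 1) alg := by
      funext O
      exact propext (hN O).symm
    rw [e1, e2] at h1
    exact h1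
  · have hT := hTJF k i0 c C ε hε
    rw [Nat.add_comm (i0 + 1) k] at hT
    filter_upwards [hT, eventually_ge_atTop 1] with n hn hn1 mw m alg hmw hm hadm
    obtain ⟨n', rfl⟩ : ∃ n', n = n' + 1 := ⟨n - 1, by omega⟩
    exact coreF hMKX hFXU hARN hAMN hSCX (k + (i0 + 1)) n' k m (max m 1) (le_max_left _ _)
      (Yes mw (i0 + 1 + 1) alg) (No mw (i0 + 1 + 1) alg)
      (fun e he => hn mw (max m 1) alg e (le_trans hmw (le_max_left _ _)) (le_max_right _ _)
        (hmax _ _ _ hn1 hm) hadm he)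

end Pool.Agent.H60.QC
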