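import Pool.Agent.H68.QC.Targets
import Pool.Agent.H70.PX.Evn

/-!
# Module MCP: the strings of `hlang l O` whose length is a power of two and their complement
-/

set_option autoImplicit false

namespace Pool.Agent.H60.QC

open Finset Pool.Agent.H6.NB Pool.Agent.H70.OQ Pool.Agent.H70.PX
open Pool.Agent.H68.QC

/-- **MCP.** -/
theorem pf_MCP : T_MCP := by
  classical
  intro l
  refine ⟨machc l (fun u => decide (u.head? = some true ∧ ∃ r, u.length = 2 ^ r)) fun _ => false,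
    machc l (fun u => decide (u.head? ≠ some true)) fun x => decide (¬ ∃ r, x.length = 2 ^ r),
    fun O hO => ?_⟩
  have h1 : (machc l (fun u => decide (u.head? = some true ∧ ∃ r, u.length = 2 ^ r))
      fun _ => false).lang O = {x | x ∈ hlang l O ∧ ∃ r, x.length = 2 ^ r} := by
    ext x
    rw [machc_lang]
    simp only [Bool.false_eq_true, false_or, decide_eq_true_eq]
    constructor
    · rintro ⟨u, hu, ⟨h1, h2⟩, h3⟩
      exact ⟨⟨u, hu, h1, h3⟩, by rw [← hu]; exact h2⟩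
    · rintro ⟨⟨u, hu, h1, h3⟩, h2⟩
      exact ⟨u, hu, ⟨h1, by rw [hu]; exact h2⟩, h3⟩
  refine ⟨h1, ?_⟩
  rw [h1]
  ext x
  rw [machc_lang]
  simp only [decide_eq_true_eq, ne_eq]
  constructor
  · rintro (h | ⟨u, hu, h2, h3⟩) ⟨⟨v, hv, h4, h5⟩, h6⟩
    · exact h h6
    · obtain ⟨r, hr⟩ := h6
      obtain ⟨w, -, hw⟩ := hO r
      have e1 := hw u ⟨hu.trans hr, h3⟩
      have e2 := hw v ⟨hv.trans hr, h5⟩
      exact h2 (by rw [e1, ← e2]; exact h4)
  · intro h
    by_cases hx : ∃ r, x.length = 2 ^ r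
    · right
      obtain ⟨r, hr⟩ := id hx
      obtain ⟨u, ⟨hu, hs⟩, -⟩ := hO r
      refine ⟨u, hu.trans hr.symm, fun h2 => h ⟨⟨u, hu.trans hr.symm, h2, hs⟩, hx⟩, hs⟩
    · exact .inl hx

end Pool.Agent.H60.QC
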